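import Pool.Agent.H824.AmpK

/-!
# An ample line bundle mapping to the tangent bundle in characteristic two

Over every algebraically closed field `k` of characteristic `2` and for every odd `n = 2m + 1 ≥ 3`,
the quadric `V : z² + x₀y₀ + … + x_m y_m = 0` in `ℙ^(n+1)` is a smooth projective variety of
dimension `n` which is not isomorphic to `ℙ^n`, and there is a morphism `O_V(1) → T_V`, given by
the vector field `∂/∂z`, which is nonzero (and even nonzero on every fibre, so that the very ample
line bundle `O_V(1)` is a line subbundle of `T_V`).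
-/

namespace Pool.Agent.Results.MP_63fcef_ag.AmpleToTangent

open Pool.Agent.H824

theorem result (k : Type) [Field k] [IsAlgClosed k] [CharP k 2] (m : ℕ) (hm : 1 ≤ m) :
    ∃ V : ProjVariety k (QVar m),
      V.ideal = Ideal.span {quadForm k m} ∧ V.dim = 2 * m + 1 ∧ V.IsSmooth ∧
      ¬ V.IsIsoTo (projSpace k (Fin (2 * m + 2))) ∧
      ∃ Φ : V.RatSec →ₗ[V.FunField] V.RatVec,
        V.IsMorphism Φ ∧ Φ ≠ 0 ∧ ∀ z ∈ V.points, V.NonzeroAt Φ z :=
  ample_main k m hm

end Pool.Agent.Results.MP_63fcef_ag.AmpleToTangent
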